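import Pool.Agent.LibSN3.Main

/-!
# The stack number of outerplanar directed acyclic graphs can be at least five
-/

set_option autoImplicit false

namespace Pool.Agent.Results.MP_e9f1f2_co.FiveStacks

open Pool.Agent.LibSN3

/-- There is a finite outerplanar directed acyclic graph whose stack number is at least `5`: it has
no `k`-stack layout with `k ≤ 4`. -/
theorem result : ∃ (V : Type) (_ : Finite V) (E : V → V → Prop),
    IsDAG E ∧ Outerplanar E ∧ ∀ k : ℕ, k ≤ 4 → ¬ HasStackLayout E k := by
  obtain ⟨V, hV, E, h1, h2, h3⟩ := main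
  refine ⟨V, hV, E, h1, h2, ?_⟩
  rintro k hk ⟨lt, col, g1, g2, g3⟩
  refine h3 ⟨lt, fun a b => Fin.castLE hk (col a b), g1, g2, ?_⟩
  intro a b c d hab hcd hc
  exact g3 a b c d hab hcd (Fin.castLE_injective hk hc)

end Pool.Agent.Results.MP_e9f1f2_co.FiveStacks
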