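import Pool.Agent.SN22.Main
import Pool.Agent.SN22.Data9

/-!
# Nine stacks suffice for every outerplanar DAG

The layout is built by recursion over a triangulation: a piece with base edge `(u, v)` is laid out in the
regions `L, u, M0, M1, v, R`; a context (one of 8) says which pairs of regions may be joined by which of
the 9 colours; a rule for each context and each of the three possible positions of the third vertex of the
triangle merges the layouts of the two smaller pieces. That the rules are sound is a finite check
(`chkQ`), done by the kernel; `comp` and `good_all` turn it into the induction.
-/

set_option autoImplicit false

namespace Pool.Agent.Results.MP_e9f1f2_co.UpperBound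

open Pool.Agent.SN22

/-- Every finite outerplanar DAG has a 9-stack layout. -/
theorem result {V : Type*} [Finite V] (E : V → V → Prop) (hD : IsDag E) (hO : IsOuterplanar E) :
    HasStackLayout E 9 :=
  main aut9 aut9_ok E hD hO

end Pool.Agent.Results.MP_e9f1f2_co.UpperBound
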